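import Pool.Agent.H75.CO.Defs
import Pool.Agent.H10.RA.Val

/-!
# H2 BR, Exp: the exponents of a norm with respect to a lattice are unique; the balls of the norms `sg` in coordinates
-/

set_option autoImplicit false

namespace Pool.Agent.H2.BR

open Pool.Agent.H54.TT Pool.Agent.H98.RH Pool.Agent.H75.CO Pool.Agent.H10.RA Matrix

variable {K : Type} [Field K] {v : K → ℤ} {hv : IsDV v} {n : ℕ}

theorem geR_iff {r : ℝ} {x : K} : GeR v r x ↔ Ge v ⌈r⌉ x := by
  unfold GeR Ge
  exact imp_congr Iff.rfl Int.ceil_le.symm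

theorem geR_mono {r r' : ℝ} (h : r' ≤ r) {x : K} (hx : GeR v r x) : GeR v r' x := fun h0 => h.trans (hx h0)

theorem geR_zero (r : ℝ) : GeR v r (0 : K) := fun h => absurd rfl h

theorem geR_add (hv : IsDV v) {r : ℝ} {x y : K} (hx : GeR v r x) (hy : GeR v r y) : GeR v r (x + y) := by
  rw [geR_iff] at hx hy ⊢
  exact ge_add hv hx hy

theorem mem_LM {g : GL (Fin n) K} {x : Fin n → K} : x ∈ LM hv g ↔ ∀ i, Ge v 0 (((g⁻¹).val *ᵥ x) i) := by
  constructor
  · rintro ⟨y, hy, rfl⟩ i
    have h1 : (g⁻¹).val *ᵥ (g.val *ᵥ y) = y := by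
      rw [Matrix.mulVec_mulVec, ← Units.val_mul, inv_mul_cancel, Units.val_one, Matrix.one_mulVec]
    show Ge v 0 (((g⁻¹).val *ᵥ (g.val *ᵥ y)) i)
    rw [h1]
    exact hy i
  · intro h
    refine ⟨(g⁻¹).val *ᵥ x, h, ?_⟩
    show g.val *ᵥ ((g⁻¹).val *ᵥ x) = x
    rw [Matrix.mulVec_mulVec, ← Units.val_mul, mul_inv_cancel, Units.val_one, Matrix.one_mulVec]

theorem mem_sh {π : Kˣ} (hπ : v π = 1) {k : ℤ} {g : GL (Fin n) K} {x : Fin n → K} :
    x ∈ sh π k (LM hv g) ↔ ∀ i, Ge v k (((g⁻¹).val *ᵥ x) i) := by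
  have hpk : ∀ k : ℤ, v ((π ^ k : Kˣ) : K) = k := by
    have hnat : ∀ m : ℕ, v ((π ^ m : Kˣ) : K) = m := by
      intro m
      induction m with
      | zero => rw [pow_zero, Units.val_one, hv.one]; rfl
      | succ m ih =>
        rw [pow_succ, Units.val_mul, hv.mul _ _ (Units.ne_zero _) (Units.ne_zero _), ih, hπ]
        push_cast
        ring
    intro k
    obtain ⟨m, rfl | rfl⟩ := k.eq_nat_or_neg
    · rw [zpow_natCast, hnat]
    · rw [_root_.zpow_neg, zpow_natCast, Units.val_inv_eq_inv_val, hv.inv (Units.ne_zero _), hnat]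
  constructor
  · rintro ⟨y, hy, rfl⟩ i
    have h1 := (mem_LM.1 hy) i
    show Ge v k (((g⁻¹).val *ᵥ (((π ^ k : Kˣ) : K) • y)) i)
    rw [Matrix.mulVec_smul, Pi.smul_apply, smul_eq_mul]
    have h2 : Ge v k ((π ^ k : Kˣ) : K) := fun _ => by rw [hpk]
    have h3 := ge_mul hv h2 h1
    rwa [add_zero] at h3
  · intro h
    refine ⟨((π ^ (-k) : Kˣ) : K) • x, mem_LM.2 fun i => ?_, ?_⟩
    · rw [Matrix.mulVec_smul, Pi.smul_apply, smul_eq_mul]
      have h2 : Ge v (-k) ((π ^ (-k) : Kˣ) : K) := fun _ => by rw [hpk]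
      have h3 := ge_mul hv h2 (h i)
      rwa [neg_add_cancel] at h3
    · show ((π ^ k : Kˣ) : K) • ((π ^ (-k) : Kˣ) : K) • x = x
      rw [smul_smul, ← Units.val_mul, ← _root_.zpow_add, add_neg_cancel, zpow_zero, Units.val_one, one_smul]

theorem mem_bl {π : Kˣ} (hπ : v π = 1) {t : ℝ} {g : GL (Fin n) K} {x : Fin n → K} :
    x ∈ bl π (LM hv g) t ↔ ∀ i, GeR v (-t) (((g⁻¹).val *ᵥ x) i) := by
  unfold bl
  rw [mem_sh hπ]
  refine forall_congr' fun i => ?_
  rw [geR_iff, Int.ceil_neg]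

/-- a matrix in `GL_n(O)` has, for every `k`, an entry which is a unit, above or on row `k` and right of or on column `k` -/
theorem exists_unit_entry (hv : IsDV v) {g : Matrix (Fin n) (Fin n) K} (hg : ∀ i j, Ge v 0 (g i j)) (hd : g.det ≠ 0)
    (hd' : v g.det = 0) (k : Fin n) : ∃ i j, i ≤ k ∧ k ≤ j ∧ ¬ Ge v 1 (g i j) := by
  classical
  by_contra hcon
  push Not at hcon
  have h1 : Ge v 1 g.det := by
    rw [Matrix.det_apply]
    refine ge_sum hv _ fun σ _ => ?_
    have h2 : ∃ j, k ≤ j ∧ σ j ≤ k := by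
      by_contra hc
      push Not at hc
      have h3 : (Finset.univ.filter fun j : Fin n => k ≤ j).card ≤ (Finset.univ.filter fun j : Fin n => k < j).card :=
        Finset.card_le_card_of_injOn (fun j => σ j)
          (fun j hj => Finset.mem_filter.2 ⟨Finset.mem_univ _, hc j (Finset.mem_filter.1 hj).2⟩)
          (fun _ _ _ _ h => σ.injective h)
      have h4 : (Finset.univ.filter fun j : Fin n => k < j).card < (Finset.univ.filter fun j : Fin n => k ≤ j).card := by
        refine Finset.card_lt_card (Finset.ssubset_iff_of_subset ?_ |>.2 ⟨k, ?_, ?_⟩)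
        · intro j hj
          exact Finset.mem_filter.2 ⟨Finset.mem_univ _, (Finset.mem_filter.1 hj).2.le⟩
        · exact Finset.mem_filter.2 ⟨Finset.mem_univ _, le_rfl⟩
        · intro hk
          exact lt_irrefl _ (Finset.mem_filter.1 hk).2
      omega
    obtain ⟨j, hj1, hj2⟩ := h2
    have h5 : Ge v 1 (∏ i, g (σ i) i) := by
      rw [← Finset.mul_prod_erase Finset.univ (fun i => g (σ i) i) (Finset.mem_univ j)]
      have h6 := ge_prod hv (Finset.univ.erase j) (f := fun i => g (σ i) i) (k := 0) fun i _ => hg _ _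
      rw [mul_zero] at h6
      have h7 := ge_mul hv (hcon (σ j) j hj2 hj1) h6
      rwa [add_zero] at h7
    rcases Int.units_eq_one_or (Equiv.Perm.sign σ) with hs | hs
    · rw [hs, one_smul]
      exact h5
    · rw [hs, Units.neg_smul, one_smul]
      exact ge_neg hv h5
  have h8 := h1 hd
  omega

theorem entries_of_eq {e e' : GL (Fin n) K} (h : LM hv e = LM hv e') : ∀ i j, Ge v 0 ((e⁻¹ * e').val i j) := by
  intro i j
  have h1 : e'.val *ᵥ (Pi.single j 1) ∈ LM hv e' := by
    rw [mem_LM]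
    intro i
    rw [Matrix.mulVec_mulVec, ← Units.val_mul, inv_mul_cancel, Units.val_one, Matrix.one_mulVec]
    by_cases hij : i = j
    · rw [hij, Pi.single_eq_same]
      intro _
      rw [hv.one]
    · rw [Pi.single_eq_of_ne hij]
      exact ge_zero hv 0
  rw [← h, mem_LM] at h1
  have h2 := h1 i
  rw [Matrix.mulVec_mulVec, ← Units.val_mul, Matrix.mulVec_single_one] at h2
  exact h2

theorem vdet_of_eq {e e' : GL (Fin n) K} (h : LM hv e = LM hv e') : v (e⁻¹ * e').val.det = 0 := by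
  have h1 := ge_det hv (M := (e⁻¹ * e').val) (k := 0) (entries_of_eq h)
  have h2 := ge_det hv (M := (e'⁻¹ * e).val) (k := 0) (entries_of_eq h.symm)
  have h3 : (e⁻¹ * e').val.det * (e'⁻¹ * e).val.det = 1 := by
    rw [← Matrix.det_mul, ← Units.val_mul]
    have : e⁻¹ * e' * (e'⁻¹ * e) = 1 := by group
    rw [this, Units.val_one, Matrix.det_one]
  have h4 : (e⁻¹ * e').val.det ≠ 0 := left_ne_zero_of_mul_eq_one h3
  have h5 : (e'⁻¹ * e).val.det ≠ 0 := right_ne_zero_of_mul_eq_one h3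
  have h6 := hv.mul _ _ h4 h5
  rw [h3, hv.one] at h6
  have h7 := h1 h4
  have h8 := h2 h5
  rw [mul_zero] at h7 h8
  omega

theorem Ad.le {B : ℝ → Lt hv n} {M : Lt hv n} {e e' : GL (Fin n) K} {β β' : Fin n → ℝ} (h : Ad B M e β)
    (h' : Ad B M e' β') (k : Fin n) : β' k ≤ β k := by
  have hl : LM hv e = LM hv e' := h.lat.trans h'.lat.symm
  obtain ⟨i, j, hi, hj, hu⟩ := exists_unit_entry hv (entries_of_eq hl) (Matrix.GeneralLinearGroup.det_ne_zero _)
    (vdet_of_eq hl) k
  have h1 : e'.val *ᵥ (Pi.single j 1) ∈ B (-β' j) := by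
    rw [h'.mem]
    intro a
    rw [Matrix.mulVec_mulVec, ← Units.val_mul, inv_mul_cancel, Units.val_one, Matrix.one_mulVec]
    by_cases haj : a = j
    · rw [haj, Pi.single_eq_same]
      intro _
      rw [hv.one]
      simp
    · rw [Pi.single_eq_of_ne haj]
      exact geR_zero _
  rw [h.mem] at h1
  have h2 := h1 i
  rw [Matrix.mulVec_mulVec, ← Units.val_mul, Matrix.mulVec_single_one] at h2
  have h3 : (e⁻¹ * e').val i j ≠ 0 := by
    intro h0
    apply hu
    rw [h0]
    exact ge_zero hv 1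
  have h4 : -(-β' j) - β i ≤ (v ((e⁻¹ * e').val i j) : ℝ) := h2 h3
  have h5 : v ((e⁻¹ * e').val i j) < 1 := by
    by_contra hc
    exact hu fun _ => not_lt.1 hc
  have h6 : v ((e⁻¹ * e').val i j) ≤ 0 := by omega
  have h7 : (v ((e⁻¹ * e').val i j) : ℝ) ≤ 0 := by exact_mod_cast h6
  have h8 := h.mono hi
  have h9 := h'.mono hj
  linarith

/-- the exponents are unique -/
theorem Ad.unique {B : ℝ → Lt hv n} {M : Lt hv n} {e e' : GL (Fin n) K} {β β' : Fin n → ℝ} (h : Ad B M e β)
    (h' : Ad B M e' β') : β = β' :=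
  funext fun k => le_antisymm (Ad.le h' h k) (Ad.le h h' k)

theorem bt_eq {B : ℝ → Lt hv n} {M : Lt hv n} {e : GL (Fin n) K} {β : Fin n → ℝ} (h : Ad B M e β) (k : Fin n) :
    bt B M k = β k := by
  have h1 : ∃ e β, Ad B M e β := ⟨e, β, h⟩
  unfold bt
  rw [dif_pos h1]
  exact congrFun (Ad.unique h1.choose_spec.choose_spec h) k

/-- the balls of `sg` in coordinates -/
theorem mem_sg {π : Kˣ} (hπ : v π = 1) {B : ℝ → Lt hv n} {M : Lt hv n} {e : GL (Fin n) K} {β : Fin n → ℝ}
    (h : Ad B M e β) (k : Fin n) (t : ℝ) (x : Fin n → K) :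
    x ∈ sg π M B k t ↔ ∀ i, GeR v (-t + min (β k - β i) 0) (((e⁻¹).val *ᵥ x) i) := by
  unfold sg
  rw [bt_eq h, Submodule.mem_sup]
  constructor
  · rintro ⟨y, hy, z, hz, rfl⟩ i
    rw [Matrix.mulVec_add, Pi.add_apply]
    rw [h.mem] at hy
    rw [← h.lat, mem_bl hπ] at hz
    refine geR_add hv (geR_mono ?_ (hy i)) (geR_mono ?_ (hz i))
    · have := min_le_left (β k - β i) 0
      linarith
    · have := min_le_right (β k - β i) 0
      linarith
  · intro hx
    obtain ⟨z, hz⟩ : ∃ z, z = (e⁻¹).val *ᵥ x := ⟨_, rfl⟩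
    rw [← hz] at hx
    have hinv : ∀ y : Fin n → K, (e⁻¹).val *ᵥ (e.val *ᵥ y) = y := fun y => by
      rw [Matrix.mulVec_mulVec, ← Units.val_mul, inv_mul_cancel, Units.val_one, Matrix.one_mulVec]
    refine ⟨e.val *ᵥ (fun i => if β k ≤ β i then z i else 0), ?_, e.val *ᵥ (fun i => if β k ≤ β i then 0 else z i), ?_, ?_⟩
    · rw [h.mem]
      intro i
      rw [hinv]
      by_cases hi : β k ≤ β i
      · have h1 := hx i
        rw [min_eq_left (by linarith)] at h1
        rw [if_pos hi]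
        exact geR_mono (by linarith) h1
      · rw [if_neg hi]
        exact geR_zero _
    · rw [← h.lat, mem_bl hπ]
      intro i
      rw [hinv]
      by_cases hi : β k ≤ β i
      · rw [if_pos hi]
        exact geR_zero _
      · have h1 := hx i
        rw [min_eq_right (by linarith), add_zero] at h1
        rw [if_neg hi]
        exact h1
    · rw [← Matrix.mulVec_add]
      have h1 : ((fun i => if β k ≤ β i then z i else 0) + fun i => if β k ≤ β i then 0 else z i) = z := by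
        funext i
        rw [Pi.add_apply]
        by_cases hi : β k ≤ β i
        · rw [if_pos hi, if_pos hi, add_zero]
        · rw [if_neg hi, if_neg hi, zero_add]
      rw [h1, hz, Matrix.mulVec_mulVec, ← Units.val_mul, mul_inv_cancel, Units.val_one, Matrix.one_mulVec]

/-- multiplication of the norm by a constant does not change `sg` -/
theorem sg_shift {π : Kˣ} {B : ℝ → Lt hv n} (hB : Hn B) (h : GL (Fin n) K) (τ : ℝ) (k : Fin n) :
    sg π (LM hv h) (fun t => B (t - τ)) k = sg π (LM hv h) B k := by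
  obtain ⟨e, β, hA⟩ := hB h
  have hA' : Ad (fun t => B (t - τ)) (LM hv h) e (fun i => β i - τ) := by
    refine ⟨hA.lat, fun i j hij => ?_, fun t x => ?_⟩
    · have := hA.mono hij
      show β i - τ ≤ β j - τ
      linarith
    · show x ∈ B (t - τ) ↔ _
      rw [hA.mem]
      refine forall_congr' fun i => ?_
      have e1 : -(t - τ) - β i = -t - (β i - τ) := by ring
      rw [e1]
  funext t
  unfold sg
  rw [bt_eq hA, bt_eq hA']
  have e2 : t - (β k - τ) - τ = t - β k := by ring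
  show B (t - (β k - τ) - τ) ⊔ _ = _
  rw [e2]

end Pool.Agent.H2.BR
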